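import Pool.Agent.Helper13.Lor.ALG

set_option autoImplicit false

/-! # Module DISC: discreteness and partition of unity -/

namespace Pool.Agent.Helper64.Lor

open MeasureTheory Topology Set
open Pool.Agent.Helper10.Lor
open Pool.Agent.Helper13.Lor (form_self g_fst_pos act_mem vec_act act_mul uval_act uval_w0
  uval_pos)

variable {n : ℕ}

/-! ### coordinates of the lattice -/

/-- the basis of `ℝⁿ` given by `b` -/
noncomputable def bas {b : Fin n → E n} (hb : LinearIndependent ℝ b) : Module.Basis (Fin n) ℝ (E n) :=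
  basisOfLinearIndependentOfCardEqFinrank' b hb (by simp)

theorem bas_apply {b : Fin n → E n} (hb : LinearIndependent ℝ b) (i : Fin n) :
    bas hb i = b i := by
  unfold bas
  simp

theorem lattice_finite {L : AddSubgroup (E n)} {b : Fin n → E n} (hL : EvenLat L b) (M : ℝ) :
    {x : E n | x ∈ L ∧ ‖x‖ ≤ M}.Finite := by
  classical
  -- a bound of the coordinates
  let c : Fin n → (E n →L[ℝ] ℝ) := fun i => ((bas hL.li).coord i).toContinuousLinearMap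
  obtain ⟨N, hN⟩ := exists_nat_ge (∑ i, ‖c i‖ * |M|)
  have hfin : (Set.Icc (fun _ : Fin n => -(N : ℤ)) (fun _ : Fin n => (N : ℤ))).Finite :=
    Set.finite_Icc _ _
  refine (hfin.image fun m : Fin n → ℤ => ∑ i, (m i : ℝ) • b i).subset ?_
  rintro x ⟨hx, hxM⟩
  obtain ⟨m, rfl⟩ := (hL.mem x).mp hx
  refine ⟨m, ?_, rfl⟩
  have hc : ∀ i, c i (∑ j, (m j : ℝ) • b j) = m i := by
    intro i
    show (bas hL.li).coord i (∑ j, (m j : ℝ) • b j) = m i
    have h1 : ∑ j, (m j : ℝ) • b j = ∑ j, (m j : ℝ) • bas hL.li j := by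
      simp only [bas_apply]
    rw [h1, Module.Basis.coord_apply, Module.Basis.repr_sum_self]
  have habs : ∀ i, |(m i : ℝ)| ≤ N := by
    intro i
    have h1 := (c i).le_opNorm (∑ j, (m j : ℝ) • b j)
    rw [hc i, Real.norm_eq_abs] at h1
    have h2 : ‖c i‖ * ‖∑ j, (m j : ℝ) • b j‖ ≤ ‖c i‖ * |M| :=
      mul_le_mul_of_nonneg_left (hxM.trans (le_abs_self M)) (norm_nonneg _)
    have h3 : ‖c i‖ * |M| ≤ ∑ i, ‖c i‖ * |M| :=
      Finset.single_le_sum (f := fun i => ‖c i‖ * |M|)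
        (fun j _ => mul_nonneg (norm_nonneg _) (abs_nonneg _)) (Finset.mem_univ i)
    linarith
  constructor
  · intro i
    have := (abs_le.mp (habs i)).1
    exact_mod_cast this
  · intro i
    have := (abs_le.mp (habs i)).2
    exact_mod_cast this

theorem lat_finite {L : AddSubgroup (E n)} {b : Fin n → E n} (hL : EvenLat L b) (M : ℝ) :
    {x : LV n | x ∈ lat L ∧ |x.1| ≤ M ∧ |x.2.1| ≤ M ∧ ‖x.2.2‖ ≤ M}.Finite := by
  obtain ⟨N, hN⟩ := exists_nat_ge M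
  have hfin : (Set.Icc (-(N : ℤ)) (N : ℤ)).Finite := Set.finite_Icc _ _
  have h1 : ((fun m : ℤ => (m : ℝ)) '' Set.Icc (-(N : ℤ)) (N : ℤ)).Finite := hfin.image _
  refine (h1.prod (h1.prod (lattice_finite hL M))).subset ?_
  rintro ⟨a, c, v⟩ ⟨⟨⟨m, hm⟩, ⟨k, hk⟩, hv⟩, h2, h3, h4⟩
  replace hm : a = m := hm
  replace hk : c = k := hk
  subst hm
  subst hk
  have key : ∀ j : ℤ, |(j : ℝ)| ≤ M → j ∈ Set.Icc (-(N : ℤ)) (N : ℤ) := by
    intro j hj
    have h5 := abs_le.mp (hj.trans hN)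
    constructor
    · exact_mod_cast h5.1
    · exact_mod_cast h5.2
  exact ⟨⟨m, key m h2, rfl⟩, ⟨k, key k h3, rfl⟩, hv, h4⟩

/-! ### the images of the basis determine the transformation -/

/-- the images of the basis vectors -/
noncomputable def img (b : Fin n → E n) (g : LV n ≃ₗ[ℝ] LV n) : LV n × LV n × (Fin n → LV n) :=
  (g (1, 0, 0), g (0, 1, 0), fun i => g (0, 0, b i))

theorem img_injective {b : Fin n → E n} (hb : LinearIndependent ℝ b) :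
    Function.Injective (img b) := by
  intro g h hgh
  have h1 : g (1, 0, 0) = h (1, 0, 0) := congrArg Prod.fst hgh
  have h2 : g (0, 1, 0) = h (0, 1, 0) := congrArg (fun x => x.2.1) hgh
  have h3 : ∀ i, g (0, 0, b i) = h (0, 0, b i) := fun i =>
    congrFun (congrArg (fun x => x.2.2) hgh) i
  let ι : E n →ₗ[ℝ] LV n := (LinearMap.inr ℝ ℝ (ℝ × E n)).comp (LinearMap.inr ℝ ℝ (E n))
  have hι : ∀ v, ι v = (0, 0, v) := fun v => rfl
  have h4 : g.toLinearMap.comp ι = h.toLinearMap.comp ι := by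
    refine (bas hb).ext fun i => ?_
    rw [bas_apply]
    exact h3 i
  have h5 : ∀ v, g (0, 0, v) = h (0, 0, v) := fun v => LinearMap.congr_fun h4 v
  apply LinearEquiv.ext
  intro x
  have hx : x = x.1 • ((1, 0, 0) : LV n) + x.2.1 • ((0, 1, 0) : LV n) + (0, 0, x.2.2) := by
    refine Prod.ext ?_ (Prod.ext ?_ ?_)
    · simp
    · simp
    · simp
  rw [hx, map_add, map_add, map_smul, map_smul, map_add, map_add, map_smul, map_smul, h1, h2, h5]

theorem b_mem {L : AddSubgroup (E n)} {b : Fin n → E n} (hL : EvenLat L b) (i : Fin n) :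
    b i ∈ L := by
  classical
  rw [hL.mem]
  refine ⟨Pi.single i 1, ?_⟩
  rw [Finset.sum_eq_single i]
  · simp
  · intro j _ hj
    simp [Pi.single_eq_of_ne hj]
  · simp

theorem img_mem {L : AddSubgroup (E n)} {b : Fin n → E n} (hL : EvenLat L b)
    {g : LV n ≃ₗ[ℝ] LV n} (hg : g ∈ OL L) :
    (img b g).1 ∈ lat L ∧ (img b g).2.1 ∈ lat L ∧ ∀ i, (img b g).2.2 i ∈ lat L := by
  refine ⟨(hg.2 _).mpr ⟨⟨1, by simp⟩, ⟨0, by simp⟩, L.zero_mem⟩,
    (hg.2 _).mpr ⟨⟨0, by simp⟩, ⟨1, by simp⟩, L.zero_mem⟩, fun i =>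
    (hg.2 _).mpr ⟨⟨0, by simp⟩, ⟨0, by simp⟩, b_mem hL i⟩⟩

theorem lat_countable {L : AddSubgroup (E n)} {b : Fin n → E n} (hL : EvenLat L b) :
    (lat L).Countable := by
  have h1 : lat L = ⋃ N : ℕ, {x : LV n | x ∈ lat L ∧ |x.1| ≤ N ∧ |x.2.1| ≤ N ∧ ‖x.2.2‖ ≤ N} := by
    ext x
    simp only [mem_iUnion]
    constructor
    · intro hx
      obtain ⟨N, hN⟩ := exists_nat_ge (|x.1| + |x.2.1| + ‖x.2.2‖)
      have h1 := abs_nonneg x.1
      have h2 := abs_nonneg x.2.1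
      have h3 := norm_nonneg x.2.2
      exact ⟨N, hx, by linarith, by linarith, by linarith⟩
    · rintro ⟨N, hx, -⟩
      exact hx
  rw [h1]
  exact countable_iUnion fun N => (lat_finite hL N).countable

theorem countable_OL {L : AddSubgroup (E n)} {b : Fin n → E n} (hL : EvenLat L b) :
    Countable (OL L) := by
  have h1 := lat_countable hL
  have h2 : (lat L ×ˢ lat L ×ˢ (Set.pi univ fun _ : Fin n => lat L)).Countable :=
    h1.prod (h1.prod (Set.countable_univ_pi fun _ => h1))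
  have h3 : ((OL L : Set (LV n ≃ₗ[ℝ] LV n))).Countable := by
    refine Set.MapsTo.countable_of_injOn (f := img b) ?_ (img_injective hL.li).injOn h2
    intro g hg
    obtain ⟨h4, h5, h6⟩ := img_mem hL hg
    exact ⟨h4, h5, fun i _ => h6 i⟩
  exact h3.to_subtype

/-! ### the positive definite form of a point -/

/-- the positive definite form -/
noncomputable def Qf (q : Pt n) (x : LV n) : ℝ :=
  ‖x.2.2 - x.1 • q.1‖ ^ 2 + x.1 ^ 2 * q.2 ^ 2 / 2 +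
    2 * (x.2.1 - inner ℝ x.2.2 q.1 + x.1 * ‖q.1‖ ^ 2 / 2) ^ 2 / q.2 ^ 2

theorem form_vec_eq {q : Pt n} (hq : q ∈ UH n) (x : LV n) :
    form (vec q) x = -(1 / q.2) * ((x.2.1 - inner ℝ x.2.2 q.1 + x.1 * ‖q.1‖ ^ 2 / 2) +
      x.1 * q.2 ^ 2 / 2) := by
  have h1 : (0 : ℝ) < q.2 := hq
  unfold form vec
  dsimp only
  rw [inner_smul_left, conj_trivial, real_inner_comm x.2.2 q.1]
  field_simp
  ring

theorem form_self_eq (q : Pt n) (x : LV n) :
    form x x = ‖x.2.2 - x.1 • q.1‖ ^ 2 -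
      2 * x.1 * (x.2.1 - inner ℝ x.2.2 q.1 + x.1 * ‖q.1‖ ^ 2 / 2) := by
  rw [form_self, @norm_sub_sq_real, inner_smul_right, norm_smul, mul_pow, Real.norm_eq_abs, sq_abs]
  ring

theorem Qf_eq {q : Pt n} (hq : q ∈ UH n) (x : LV n) :
    Qf q x = form x x + 2 * (form (vec q) x) ^ 2 := by
  have h1 : (0 : ℝ) < q.2 := hq
  rw [form_vec_eq hq, form_self_eq q]
  unfold Qf
  field_simp
  ring

theorem Qf_act {g : LV n ≃ₗ[ℝ] LV n} (hg : g ∈ LG n) {q : Pt n} (hq : q ∈ UH n) (x : LV n) :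
    Qf (act g q) (g x) = Qf q x := by
  rw [Qf_eq (act_mem hg hq), Qf_eq hq, vec_act hg hq, hg.1, hg.1]

theorem uval_lower {L : AddSubgroup (E n)} {w : LV n} (hw : w ∈ Orb L) {q : Pt n}
    (hq : q ∈ UH n) : min (1 / q.2) (q.2 / 2) ≤ uval w q := by
  have hr : (0 : ℝ) < q.2 := hq
  have hpos := uval_pos hw hq
  obtain ⟨γ, hγ, rfl⟩ := hw
  have hlat : γ w0 ∈ lat L := (hγ.2 _).mpr ⟨⟨0, by simp [w0]⟩, ⟨1, by simp [w0]⟩, by
    show (0 : E n) ∈ L
    exact L.zero_mem⟩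
  have hiso : form (γ w0) (γ w0) = 0 := by
    rw [hγ.1.1, form_self]
    simp [w0]
  set w := γ w0 with hwdef
  obtain ⟨⟨A, hA⟩, ⟨B, hB⟩, -⟩ := hlat
  set B' := w.2.1 - inner ℝ w.2.2 q.1 + w.1 * ‖q.1‖ ^ 2 / 2 with hB'
  have hu : uval w q = (1 / q.2) * (B' + w.1 * q.2 ^ 2 / 2) := by
    unfold uval
    rw [form_vec_eq hq]
    ring
  have h0 : 2 * w.1 * B' = ‖w.2.2 - w.1 • q.1‖ ^ 2 := by
    have := form_self_eq q w
    rw [hiso, ← hB'] at this
    linarith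
  have hnn : 0 ≤ 2 * w.1 * B' := by
    rw [h0]
    positivity
  rw [hu] at hpos ⊢
  have hpos' : 0 < B' + w.1 * q.2 ^ 2 / 2 := by
    by_contra hcon
    push Not at hcon
    have : (1 / q.2) * (B' + w.1 * q.2 ^ 2 / 2) ≤ 0 :=
      mul_nonpos_of_nonneg_of_nonpos (by positivity) hcon
    linarith
  rcases lt_trichotomy A 0 with hA0 | hA0 | hA0
  · exfalso
    have h1 : w.1 ≤ -1 := by
      rw [hA]
      have : A ≤ -1 := by omega
      exact_mod_cast this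
    have h2 : B' ≤ 0 := by nlinarith
    have h3 : w.1 * q.2 ^ 2 / 2 ≤ 0 := by nlinarith [sq_nonneg q.2]
    linarith
  · have h1 : w.1 = 0 := by
      rw [hA, hA0]
      simp
    have hv : w.2.2 = 0 := by
      rw [h1] at h0
      simpa using h0.symm
    have h2 : B' = B := by
      rw [hB', hv, h1, hB]
      simp
    have h3 : (1 : ℝ) ≤ B := by
      rw [h2, h1] at hpos'
      simp only [zero_mul, zero_div, add_zero] at hpos'
      have : (0 : ℤ) < B := by exact_mod_cast hpos'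
      exact_mod_cast this
    rw [h2, h1]
    refine (min_le_left _ _).trans ?_
    rw [zero_mul, zero_div, add_zero]
    exact le_mul_of_one_le_right (by positivity) h3
  · have h1 : 1 ≤ w.1 := by
      rw [hA]
      exact_mod_cast hA0
    have h2 : 0 ≤ B' := by
      by_contra hcon
      push Not at hcon
      nlinarith
    refine (min_le_right _ _).trans ?_
    have h3 : q.2 / 2 = (1 / q.2) * (q.2 ^ 2 / 2) := by
      field_simp
    rw [h3]
    apply mul_le_mul_of_nonneg_left _ (by positivity)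
    nlinarith [sq_nonneg q.2]

theorem Qf_upper {q : Pt n} {Z r0 R : ℝ} (hZ : ‖q.1‖ ≤ Z) (hr0 : 0 < r0) (hr : r0 ≤ q.2)
    (hR : q.2 ≤ R) (x : LV n) :
    Qf q x ≤ (‖x.2.2‖ + |x.1| * Z) ^ 2 + x.1 ^ 2 * R ^ 2 / 2 +
      2 * (|x.2.1| + ‖x.2.2‖ * Z + |x.1| * Z ^ 2 / 2) ^ 2 / r0 ^ 2 := by
  have hq : 0 < q.2 := by linarith
  have hZ0 : 0 ≤ Z := (norm_nonneg _).trans hZ
  have h1 : ‖x.2.2 - x.1 • q.1‖ ≤ ‖x.2.2‖ + |x.1| * Z := by
    refine (norm_sub_le _ _).trans ?_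
    rw [norm_smul, Real.norm_eq_abs]
    gcongr
  have h2 : |x.2.1 - inner ℝ x.2.2 q.1 + x.1 * ‖q.1‖ ^ 2 / 2| ≤
      |x.2.1| + ‖x.2.2‖ * Z + |x.1| * Z ^ 2 / 2 := by
    have h3 : |inner ℝ x.2.2 q.1| ≤ ‖x.2.2‖ * Z :=
      (abs_real_inner_le_norm _ _).trans (by gcongr)
    have h4 : |x.1 * ‖q.1‖ ^ 2 / 2| ≤ |x.1| * Z ^ 2 / 2 := by
      rw [abs_div, abs_mul, abs_of_nonneg (sq_nonneg ‖q.1‖), abs_of_pos (by norm_num : (0:ℝ) < 2)]
      gcongr
    have h5 := abs_add_le (x.2.1 - inner ℝ x.2.2 q.1) (x.1 * ‖q.1‖ ^ 2 / 2)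
    have h6 := abs_sub (x.2.1) (inner ℝ x.2.2 q.1)
    linarith
  unfold Qf
  have h3 : (x.2.1 - inner ℝ x.2.2 q.1 + x.1 * ‖q.1‖ ^ 2 / 2) ^ 2 ≤
      (|x.2.1| + ‖x.2.2‖ * Z + |x.1| * Z ^ 2 / 2) ^ 2 := by
    rw [← sq_abs (x.2.1 - inner ℝ x.2.2 q.1 + x.1 * ‖q.1‖ ^ 2 / 2)]
    gcongr
  gcongr

theorem Qf_bound {q : Pt n} {C a H K : ℝ} (hC : ‖q.1‖ ≤ C) (ha : 0 < a) (hq : a ≤ q.2)
    (hH : q.2 ≤ H) {y : LV n} (hK : 0 ≤ K) (hy : Qf q y ≤ K) :
    |y.1| ≤ Real.sqrt (2 * K) / a ∧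
    ‖y.2.2‖ ≤ Real.sqrt K + Real.sqrt (2 * K) / a * C ∧
    |y.2.1| ≤ Real.sqrt K * H + (Real.sqrt K + Real.sqrt (2 * K) / a * C) * C +
      Real.sqrt (2 * K) / a * C ^ 2 / 2 := by
  have hq0 : 0 < q.2 := by linarith
  have hC0 : 0 ≤ C := (norm_nonneg _).trans hC
  have hH0 : 0 < H := by linarith
  unfold Qf at hy
  set B' := y.2.1 - inner ℝ y.2.2 q.1 + y.1 * ‖q.1‖ ^ 2 / 2 with hB'
  have t1 : 0 ≤ ‖y.2.2 - y.1 • q.1‖ ^ 2 := by positivity
  have t2 : 0 ≤ y.1 ^ 2 * q.2 ^ 2 / 2 := by positivity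
  have t3 : 0 ≤ 2 * B' ^ 2 / q.2 ^ 2 := by positivity
  have e1 : |y.1| ≤ Real.sqrt (2 * K) / a := by
    rw [le_div_iff₀ ha]
    apply Real.le_sqrt_of_sq_le
    rw [mul_pow, sq_abs]
    have : y.1 ^ 2 * a ^ 2 ≤ y.1 ^ 2 * q.2 ^ 2 := by gcongr
    linarith
  have e2 : ‖y.2.2 - y.1 • q.1‖ ≤ Real.sqrt K := by
    apply Real.le_sqrt_of_sq_le
    linarith
  have e3 : |B'| ≤ Real.sqrt K * H := by
    have h1 : |B'| / q.2 ≤ Real.sqrt K := by
      apply Real.le_sqrt_of_sq_le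
      rw [div_pow, sq_abs]
      have h2 : 2 * B' ^ 2 / q.2 ^ 2 = 2 * (B' ^ 2 / q.2 ^ 2) := by ring
      rw [h2] at t3 hy
      linarith
    rw [div_le_iff₀ hq0] at h1
    exact h1.trans (mul_le_mul_of_nonneg_left hH (Real.sqrt_nonneg _))
  have e4 : ‖y.2.2‖ ≤ Real.sqrt K + Real.sqrt (2 * K) / a * C := by
    have h1 : y.2.2 = (y.2.2 - y.1 • q.1) + y.1 • q.1 := by abel
    calc ‖y.2.2‖ = ‖(y.2.2 - y.1 • q.1) + y.1 • q.1‖ := by rw [← h1]
      _ ≤ ‖y.2.2 - y.1 • q.1‖ + ‖y.1 • q.1‖ := norm_add_le _ _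
      _ ≤ Real.sqrt K + Real.sqrt (2 * K) / a * C := by
        rw [norm_smul, Real.norm_eq_abs]
        gcongr
  refine ⟨e1, e4, ?_⟩
  have h1 : y.2.1 = B' + inner ℝ y.2.2 q.1 - y.1 * ‖q.1‖ ^ 2 / 2 := by
    rw [hB']
    ring
  have h3 : |inner ℝ y.2.2 q.1| ≤ (Real.sqrt K + Real.sqrt (2 * K) / a * C) * C :=
    (abs_real_inner_le_norm _ _).trans (by gcongr)
  have h4 : |y.1 * ‖q.1‖ ^ 2 / 2| ≤ Real.sqrt (2 * K) / a * C ^ 2 / 2 := by
    rw [abs_div, abs_mul, abs_of_nonneg (sq_nonneg ‖q.1‖), abs_of_pos (by norm_num : (0:ℝ) < 2)]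
    gcongr
  rw [h1]
  have h5 := abs_sub (B' + inner ℝ y.2.2 q.1) (y.1 * ‖q.1‖ ^ 2 / 2)
  have h6 := abs_add_le B' (inner ℝ y.2.2 q.1)
  linarith

/-! ### local finiteness -/

theorem Qf_bound' {C a H K : ℝ} (ha : 0 < a) (hK : 0 ≤ K) : ∃ M : ℝ,
    ∀ (q : Pt n) (y : LV n), ‖q.1‖ ≤ C → a ≤ q.2 → q.2 ≤ H → Qf q y ≤ K →
      |y.1| ≤ M ∧ |y.2.1| ≤ M ∧ ‖y.2.2‖ ≤ M := by
  refine ⟨max (Real.sqrt (2 * K) / a) (max (Real.sqrt K * H +
      (Real.sqrt K + Real.sqrt (2 * K) / a * C) * C + Real.sqrt (2 * K) / a * C ^ 2 / 2)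
      (Real.sqrt K + Real.sqrt (2 * K) / a * C)), fun q y hC hq hH hy => ?_⟩
  obtain ⟨h1, h2, h3⟩ := Qf_bound hC ha hq hH hK hy
  exact ⟨h1.trans (le_max_left _ _), h3.trans ((le_max_left _ _).trans (le_max_right _ _)),
    h2.trans ((le_max_right _ _).trans (le_max_right _ _))⟩

theorem Qf_upper' {Z r0 R : ℝ} (hr0 : 0 < r0) (x : LV n) : ∃ K : ℝ, 0 ≤ K ∧
    ∀ q : Pt n, ‖q.1‖ ≤ Z → r0 ≤ q.2 → q.2 ≤ R → Qf q x ≤ K :=
  ⟨_, by positivity, fun _ hZ hr hR => Qf_upper hZ hr0 hr hR x⟩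

theorem height_bound {L : AddSubgroup (E n)} {r0 R : ℝ} (hr0 : 0 < r0) (hR : 0 < R) :
    ∃ H : ℝ, ∀ γ ∈ OL L, ∀ q : Pt n, r0 ≤ q.2 → q.2 ≤ R → (act γ q).2 ≤ H := by
  have hm0 : 0 < min (1 / R) (r0 / 2) := lt_min (by positivity) (by positivity)
  refine ⟨1 / min (1 / R) (r0 / 2), fun γ hγ q hq1 hq2 => ?_⟩
  have hqU : q ∈ UH n := lt_of_lt_of_le hr0 hq1
  have hq0 : 0 < q.2 := hqU
  have hO : γ⁻¹ w0 ∈ Orb L := ⟨_, (OL L).inv_mem hγ, rfl⟩
  have h1 := uval_lower hO hqU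
  rw [← uval_act hγ.1 w0 hqU, uval_w0 (act_mem hγ.1 hqU)] at h1
  have h2 : min (1 / R) (r0 / 2) ≤ 1 / (act γ q).2 := by
    refine le_trans ?_ h1
    refine le_min ((min_le_left _ _).trans ?_) ((min_le_right _ _).trans (by linarith))
    exact one_div_le_one_div_of_le hq0 hq2
  have h3 : 0 < (act γ q).2 := act_mem hγ.1 hqU
  rw [le_div_iff₀ hm0]
  rw [le_div_iff₀ h3] at h2
  linarith

theorem local_finite {L : AddSubgroup (E n)} {b : Fin n → E n} (hL : EvenLat L b) {p : Pt n}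
    (hp : p ∈ UH n) (C a : ℝ) (ha : 0 < a) :
    ∃ U ∈ 𝓝 p, U ⊆ UH n ∧
      {γ : OL L | ∃ q ∈ U, ‖(act γ q).1‖ ≤ C ∧ a ≤ (act γ q).2}.Finite := by
  have hp2 : 0 < p.2 := hp
  have hUo : IsOpen {q : Pt n | ‖q.1‖ < ‖p.1‖ + 1 ∧ p.2 / 2 < q.2 ∧ q.2 < 2 * p.2} := by
    have c1 : Continuous fun q : Pt n => ‖q.1‖ := by fun_prop
    have c2 : Continuous fun q : Pt n => q.2 := by fun_prop
    exact (isOpen_lt c1 continuous_const).inter
      ((isOpen_lt continuous_const c2).inter (isOpen_lt c2 continuous_const))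
  have hpU : p ∈ {q : Pt n | ‖q.1‖ < ‖p.1‖ + 1 ∧ p.2 / 2 < q.2 ∧ q.2 < 2 * p.2} :=
    ⟨by linarith, by linarith, by linarith⟩
  refine ⟨{q : Pt n | ‖q.1‖ < ‖p.1‖ + 1 ∧ p.2 / 2 < q.2 ∧ q.2 < 2 * p.2}, hUo.mem_nhds hpU,
    fun q hq => ?_, ?_⟩
  · have : p.2 / 2 < q.2 := hq.2.1
    show 0 < q.2
    linarith
  have hr00 : 0 < p.2 / 2 := by positivity
  obtain ⟨H, hH⟩ := height_bound (L := L) hr00 (show 0 < 2 * p.2 by positivity)
  obtain ⟨K1, hK1, hK1'⟩ := Qf_upper' (n := n) (Z := ‖p.1‖ + 1) (R := 2 * p.2) hr00 (1, 0, 0)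
  obtain ⟨K2, hK2, hK2'⟩ := Qf_upper' (n := n) (Z := ‖p.1‖ + 1) (R := 2 * p.2) hr00 (0, 1, 0)
  have hK3 := fun i : Fin n =>
    Qf_upper' (n := n) (Z := ‖p.1‖ + 1) (R := 2 * p.2) hr00 (0, 0, b i)
  choose K3 hK3 hK3' using hK3
  have hsum0 : 0 ≤ ∑ i, K3 i := Finset.sum_nonneg fun i _ => hK3 i
  have hsumle : ∀ i, K3 i ≤ ∑ i, K3 i := fun i =>
    Finset.single_le_sum (fun j _ => hK3 j) (Finset.mem_univ i)
  obtain ⟨M, hM⟩ := Qf_bound' (n := n) (C := C) (H := H) (K := K1 + K2 + ∑ i, K3 i) ha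
    (by linarith)
  have hfin := lat_finite hL M
  have hF : (({x : LV n | x ∈ lat L ∧ |x.1| ≤ M ∧ |x.2.1| ≤ M ∧ ‖x.2.2‖ ≤ M}) ×ˢ
      ({x : LV n | x ∈ lat L ∧ |x.1| ≤ M ∧ |x.2.1| ≤ M ∧ ‖x.2.2‖ ≤ M}) ×ˢ
      (Set.pi univ fun _ : Fin n => {x : LV n | x ∈ lat L ∧ |x.1| ≤ M ∧ |x.2.1| ≤ M ∧
        ‖x.2.2‖ ≤ M})).Finite := hfin.prod (hfin.prod (Set.Finite.pi fun _ => hfin))
  refine Set.Finite.of_finite_image (f := fun γ : OL L => img b (γ : LV n ≃ₗ[ℝ] LV n))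
    (hF.subset ?_) ?_
  · rintro _ ⟨γ, ⟨q, hq, hq1, hq2⟩, rfl⟩
    obtain ⟨hqa, hqb, hqc⟩ := hq
    have hqU : q ∈ UH n := lt_trans hr00 hqb
    have hγ := γ.2
    have hmain : ∀ x : LV n, Qf q x ≤ K1 + K2 + ∑ i, K3 i →
        |((γ : LV n ≃ₗ[ℝ] LV n) x).1| ≤ M ∧ |((γ : LV n ≃ₗ[ℝ] LV n) x).2.1| ≤ M ∧
          ‖((γ : LV n ≃ₗ[ℝ] LV n) x).2.2‖ ≤ M := by
      intro x hxK
      refine hM (act γ q) _ hq1 hq2 (hH _ hγ q hqb.le hqc.le) ?_
      rw [Qf_act hγ.1 hqU]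
      exact hxK
    obtain ⟨hm1, hm2, hm3⟩ := img_mem hL hγ
    refine ⟨⟨hm1, hmain _ ?_⟩, ⟨hm2, hmain _ ?_⟩, fun i _ => ⟨hm3 i, hmain _ ?_⟩⟩
    · have := hK1' q hqa.le hqb.le hqc.le
      linarith
    · have := hK2' q hqa.le hqb.le hqc.le
      linarith
    · have := hK3' i q hqa.le hqb.le hqc.le
      have := hsumle i
      linarith
  · intro γ _ δ _ h
    exact Subtype.ext (img_injective hL.li h)

/-! ### the partition of unity -/

/-- `act g` is smooth on the upper half-space -/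
theorem contDiffOn_act1 {g : LV n ≃ₗ[ℝ] LV n} (hg : g ∈ LG n) :
    ContDiffOn ℝ 1 (act g) (UH n) := by
  have hvec : ContDiffOn ℝ 1 (vec : Pt n → LV n) (UH n) := by
    have hne : ∀ p ∈ UH n, p.2 ≠ 0 := fun p hp => (show 0 < p.2 from hp).ne'
    have h1 : ContDiffOn ℝ 1 (fun p : Pt n => 1 / p.2) (UH n) :=
      contDiff_const.contDiffOn.div contDiff_snd.contDiffOn hne
    have h2 : ContDiffOn ℝ 1 (fun p : Pt n => (‖p.1‖ ^ 2 + p.2 ^ 2) / (2 * p.2)) (UH n) := by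
      refine ContDiffOn.div ?_ ?_ fun p hp => mul_ne_zero two_ne_zero (hne p hp)
      · exact ((contDiff_fst.norm_sq ℝ).add (contDiff_snd.pow 2)).contDiffOn
      · exact (contDiff_const.mul contDiff_snd).contDiffOn
    exact h1.prodMk (h2.prodMk (h1.smul contDiff_fst.contDiffOn))
  have hlin : ContDiff ℝ 1 (fun x : LV n => g x) :=
    (LinearMap.toContinuousLinearMap g.toLinearMap).contDiff
  have h1 : ContDiffOn ℝ 1 (fun p => g (vec p)) (UH n) := hlin.comp_contDiffOn hvec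
  have h2 : ContDiffOn ℝ 1 (fun p => 1 / (g (vec p)).1) (UH n) :=
    contDiff_const.contDiffOn.div (contDiff_fst.comp_contDiffOn h1)
      fun p hp => (g_fst_pos hg hp).ne'
  have h3 : ContDiffOn ℝ 1 (fun p => (g (vec p)).2.2) (UH n) :=
    (contDiff_snd.comp contDiff_snd).comp_contDiffOn h1
  exact (h2.smul h3).prodMk h2

/-- smooth function, positive on `{‖z‖ ≤ C, a ≤ r}`, supported in `{‖z‖ ≤ C + 1, a / 2 ≤ r}` -/
theorem exists_eta {C a : ℝ} (hC : 0 ≤ C) (ha : 0 < a) :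
    ∃ η : Pt n → ℝ, ContDiff ℝ 1 η ∧ (∀ p, 0 ≤ η p) ∧
      (∀ p, ‖p.1‖ ≤ C → a ≤ p.2 → 0 < η p) ∧
      (∀ p, η p ≠ 0 → ‖p.1‖ ≤ C + 1 ∧ a / 2 ≤ p.2) := by
  let f : ContDiffBump (0 : E n) := ⟨C + 1 / 2, C + 1, by linarith, by linarith⟩
  refine ⟨fun p => f p.1 * Real.smoothTransition (p.2 - a / 2), ?_, ?_, ?_, ?_⟩
  · have h1 : ContDiff ℝ 1 (fun p : Pt n => f p.1) := f.contDiff.comp contDiff_fst
    have h2 : ContDiff ℝ 1 (fun p : Pt n => Real.smoothTransition (p.2 - a / 2)) :=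
      Real.smoothTransition.contDiff.comp (contDiff_snd.sub contDiff_const)
    exact h1.mul h2
  · intro p
    exact mul_nonneg f.nonneg (Real.smoothTransition.nonneg _)
  · intro p hp1 hp2
    apply mul_pos
    · apply f.pos_of_mem_ball
      rw [mem_ball_zero_iff]
      show ‖p.1‖ < C + 1
      linarith
    · apply Real.smoothTransition.pos_of_pos
      linarith
  · intro p hp
    constructor
    · by_contra hc
      apply hp
      have : f p.1 = 0 := by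
        apply f.zero_of_le_dist
        rw [dist_zero_right]
        show C + 1 ≤ ‖p.1‖
        linarith
      simp only [this, zero_mul]
    · by_contra hc
      apply hp
      have : Real.smoothTransition (p.2 - a / 2) = 0 :=
        Real.smoothTransition.zero_of_nonpos (by linarith)
      simp only [this, mul_zero]

theorem exists_kap {L : AddSubgroup (E n)} {b : Fin n → E n} (hL : EvenLat L b) {C a : ℝ}
    (ha : 0 < a) (hcov : Covers L C a) : ∃ (κ : Pt n → ℝ) (C' a' : ℝ), Kap L κ C' a' := by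
  have hC : 0 ≤ C := by
    obtain ⟨γ, _, h1, _⟩ := hcov ((0 : E n), (1 : ℝ)) (by show (0:ℝ) < 1; exact one_pos)
    exact (norm_nonneg _).trans h1
  obtain ⟨η, hηs, hη0, hηp, hηsupp⟩ := exists_eta (n := n) hC ha
  have ha' : 0 < a / 2 := by positivity
  -- the sum
  set W : Pt n → ℝ := fun p => ∑' γ : OL L, η (act γ p) with hW
  have hfin : ∀ p ∈ UH n, ∃ U ∈ 𝓝 p, U ⊆ UH n ∧ ∃ S : Finset (OL L), ∀ q ∈ U, ∀ γ : OL L,
      γ ∉ S → η (act γ q) = 0 := by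
    intro p hp
    obtain ⟨U, hU, hUs, hf⟩ := local_finite hL hp (C + 1) (a / 2) ha'
    refine ⟨U, hU, hUs, hf.toFinset, fun q hq γ hγ => ?_⟩
    by_contra hc
    apply hγ
    rw [Set.Finite.mem_toFinset]
    exact ⟨q, hq, hηsupp _ hc⟩
  have hsum : ∀ p ∈ UH n, Summable fun γ : OL L => η (act γ p) := by
    intro p hp
    obtain ⟨U, hU, _, S, hS⟩ := hfin p hp
    exact summable_of_ne_finset_zero (s := S) fun γ hγ => hS p (mem_of_mem_nhds hU) γ hγ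
  have hWpos : ∀ p ∈ UH n, 0 < W p := by
    intro p hp
    obtain ⟨γ, hγ, h1, h2⟩ := hcov p hp
    exact (hsum p hp).tsum_pos (fun δ => hη0 _) ⟨γ, hγ⟩ (hηp _ h1 h2)
  have hWinv : ∀ p ∈ UH n, ∀ γ : OL L, W (act γ p) = W p := by
    intro p hp γ
    show ∑' δ : OL L, η (act δ (act γ p)) = ∑' δ : OL L, η (act δ p)
    rw [← (Equiv.mulRight γ).tsum_eq (fun δ : OL L => η (act δ p))]
    congr 1
    funext δ
    rw [Equiv.coe_mulRight, Subgroup.coe_mul, act_mul _ γ.2.1 hp]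
  have hUHo : IsOpen (UH n) := isOpen_lt continuous_const continuous_snd
  have hWs : ContDiffOn ℝ 1 W (UH n) := by
    intro p hp
    apply ContDiffAt.contDiffWithinAt
    obtain ⟨U, hU, hUs, S, hS⟩ := hfin p hp
    have h1 : W =ᶠ[𝓝 p] fun q => ∑ γ ∈ S, η (act γ q) := by
      filter_upwards [hU] with q hq
      exact tsum_eq_sum fun γ hγ => hS q hq γ hγ
    refine ContDiffAt.congr_of_eventuallyEq ?_ h1
    apply ContDiffAt.sum
    intro γ _
    exact hηs.contDiffAt.comp p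
      ((contDiffOn_act1 γ.2.1).contDiffAt (hUHo.mem_nhds hp))
  set κ : Pt n → ℝ := fun p => η p / W p with hκ
  have hηz : ∀ p : Pt n, p.2 < a / 2 → η p = 0 := by
    intro p hp
    by_contra hc
    have := (hηsupp p hc).2
    linarith
  refine ⟨κ, C + 1, a / 2, ha', ?_, ?_, ?_, ?_⟩
  · rw [contDiff_iff_contDiffAt]
    intro p
    by_cases hp : p.2 < a / 2
    · have h1 : κ =ᶠ[𝓝 p] fun _ => 0 := by
        have h2 : {q : Pt n | q.2 < a / 2} ∈ 𝓝 p :=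
          (isOpen_lt continuous_snd continuous_const).mem_nhds hp
        filter_upwards [h2] with q hq
        show η q / W q = 0
        rw [hηz q hq, zero_div]
      exact contDiffAt_const.congr_of_eventuallyEq h1
    · have hpU : p ∈ UH n := by
        show 0 < p.2
        linarith
      exact hηs.contDiffAt.div (hWs.contDiffAt (hUHo.mem_nhds hpU)) (hWpos p hpU).ne'
  · intro p
    by_cases hp : p ∈ UH n
    · exact div_nonneg (hη0 p) (hWpos p hp).le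
    · have : η p = 0 := hηz p (by
        have : ¬ (0 < p.2) := hp
        linarith)
      show 0 ≤ η p / W p
      rw [this, zero_div]
  · intro p hp
    apply hηsupp
    intro h
    apply hp
    show η p / W p = 0
    rw [h, zero_div]
  · intro p hp
    have h1 : (fun γ : OL L => κ (act γ p)) = fun γ : OL L => η (act γ p) / W p := by
      funext γ
      show η (act γ p) / W (act γ p) = _
      rw [hWinv p hp γ]
    rw [h1]
    have h2 := (hsum p hp).hasSum.div_const (W p)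
    rwa [show (∑' γ : OL L, η (act γ p)) / W p = 1 from div_self (hWpos p hp).ne'] at h2

end Pool.Agent.Helper64.Lor
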